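import Mathlib

/-!
# MP_2d6919_lc: measures on complete Boolean algebras with a continuous outer measure

We prove: if a complete Boolean algebra `B` carries a continuous outer measure `m` and every
countably generated complete subalgebra of `B` admits a measure, then `B` admits a measure.
(The countable chain condition is not needed: it follows from the existence of `m`.)

Outline of the proof.
1. On a complete subalgebra `C` with a measure `μ`, for every `ε > 0` there is `δ > 0` such that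
   `m a ≥ ε` implies `μ a ≥ δ` for `a` in `C`.
2. For each `ε` there is one `δ > 0` such that every countably generated complete subalgebra has a
   finitely additive probability which is `≥ δ` on all elements `a` with `m a ≥ ε`: otherwise
   countably many counterexamples lie in one countably generated complete subalgebra.
3. By compactness there is a finitely additive probability on `B` which is `≥ δ` on all elements
   `a` with `m a ≥ ε`; summing up, there is a finitely additive `ν` on `B` such that for all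
   `ε > 0` there is `δ > 0` with `ν a ≥ δ` if `m a ≥ ε`.
4. The countably additive part of `ν`, the infimum of the sums of `ν` over the countable
   partitions of `a`, is countably additive, and it is strictly positive by the continuity of `m`.
-/

set_option autoImplicit false

open Set Filter Topology
open scoped ENNReal NNReal

universe u

namespace Pool.Agent.Results.MP_2d6919_lc.OuterMeasure

/-- A measure on the Boolean algebra `A`: a strictly positive, countably additive map to
`[0, ∞)`. Countable additivity is required for the sequences of pairwise disjoint elements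
whose supremum exists in `A`. -/
structure IsMeasure {A : Type u} [BooleanAlgebra A] (μ : A → ℝ≥0) : Prop where
  pos : ∀ a, a ≠ ⊥ → 0 < μ a
  additive : ∀ (a : ℕ → A) (s : A), Pairwise (fun i j => Disjoint (a i) (a j)) →
    IsLUB (Set.range a) s → HasSum (fun n => μ (a n)) (μ s)

/-- A continuous outer measure on a complete Boolean algebra `B`. -/
structure IsContinuousOuterMeasure {B : Type u} [CompleteBooleanAlgebra B] (m : B → ℝ≥0) :
    Prop where
  zero : m ⊥ = 0
  pos : ∀ a, a ≠ ⊥ → 0 < m a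
  mono : ∀ a b, a ≤ b → m a ≤ m b
  subadd : ∀ a b, m (a ⊔ b) ≤ m a + m b
  cont : ∀ a : ℕ → B, Antitone a → ⨅ n, a n = ⊥ → Tendsto (fun n => m (a n)) atTop (𝓝 0)

/-- A subalgebra of `B` which is closed under all suprema and infima taken in `B`. -/
def IsCompleteSubalgebra {B : Type u} [CompleteBooleanAlgebra B] (C : BooleanSubalgebra B) :
    Prop :=
  ∀ S : Set B, S ⊆ C → sSup S ∈ C ∧ sInf S ∈ C

/-- `C` is the smallest complete subalgebra of `B` containing some countable set. -/
def IsCountablyGenerated {B : Type u} [CompleteBooleanAlgebra B] (C : BooleanSubalgebra B) :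
    Prop :=
  IsCompleteSubalgebra C ∧ ∃ G : Set B, G.Countable ∧ G ⊆ C ∧
    ∀ D : BooleanSubalgebra B, IsCompleteSubalgebra D → G ⊆ D → C ≤ D

/-! ### Complete subalgebras -/

section Sub

variable {B : Type u} [CompleteBooleanAlgebra B]

/-- The complete subalgebra generated by a set. -/
def cgen (G : Set B) : BooleanSubalgebra B :=
  sInf {D | IsCompleteSubalgebra D ∧ G ⊆ D}

theorem cgen_complete (G : Set B) : IsCompleteSubalgebra (cgen G) := by
  intro S hS
  constructor
  · rw [cgen, BooleanSubalgebra.mem_sInf]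
    rintro D ⟨hD, hG⟩
    exact (hD S (fun a ha => by
      have := hS ha
      rw [SetLike.mem_coe, cgen, BooleanSubalgebra.mem_sInf] at this
      exact this D ⟨hD, hG⟩)).1
  · rw [cgen, BooleanSubalgebra.mem_sInf]
    rintro D ⟨hD, hG⟩
    exact (hD S (fun a ha => by
      have := hS ha
      rw [SetLike.mem_coe, cgen, BooleanSubalgebra.mem_sInf] at this
      exact this D ⟨hD, hG⟩)).2

theorem subset_cgen (G : Set B) : G ⊆ cgen G := by
  intro a ha
  rw [SetLike.mem_coe, cgen, BooleanSubalgebra.mem_sInf]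
  rintro D ⟨hD, hG⟩
  exact hG ha

theorem cgen_le {G : Set B} {D : BooleanSubalgebra B} (hD : IsCompleteSubalgebra D)
    (hG : G ⊆ D) : cgen G ≤ D := sInf_le ⟨hD, hG⟩

theorem cgen_countablyGenerated {G : Set B} (hG : G.Countable) :
    IsCountablyGenerated (cgen G) :=
  ⟨cgen_complete G, G, hG, subset_cgen G, fun _ hD h => cgen_le hD h⟩

theorem cgen_mono {G H : Set B} (h : G ⊆ H) : cgen G ≤ cgen H :=
  cgen_le (cgen_complete H) (h.trans (subset_cgen H))

theorem iSup_mem' {C : BooleanSubalgebra B} (hC : IsCompleteSubalgebra C) {ι : Sort*}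
    (a : ι → B) (ha : ∀ i, a i ∈ C) : ⨆ i, a i ∈ C :=
  (hC (Set.range a) (by rintro _ ⟨i, rfl⟩; exact ha i)).1

theorem iInf_mem' {C : BooleanSubalgebra B} (hC : IsCompleteSubalgebra C) {ι : Sort*}
    (a : ι → B) (ha : ∀ i, a i ∈ C) : ⨅ i, a i ∈ C :=
  (hC (Set.range a) (by rintro _ ⟨i, rfl⟩; exact ha i)).2

/-- Measures on a complete subalgebra, as functions on the whole algebra. -/
structure MeasOn (C : BooleanSubalgebra B) (μ : B → ℝ≥0) : Prop where
  pos : ∀ a ∈ C, a ≠ ⊥ → 0 < μ a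
  add : ∀ a : ℕ → B, (∀ n, a n ∈ C) → Pairwise (fun i j => Disjoint (a i) (a j)) →
    HasSum (fun n => μ (a n)) (μ (⨆ n, a n))

theorem exists_measOn {C : BooleanSubalgebra B} (hC : IsCompleteSubalgebra C)
    (h : ∃ μ : C → ℝ≥0, IsMeasure μ) : ∃ μ : B → ℝ≥0, MeasOn C μ := by
  classical
  obtain ⟨μ, hμ⟩ := h
  refine ⟨fun b => if hb : b ∈ C then μ ⟨b, hb⟩ else 0, ?_, ?_⟩
  · intro a ha h0
    rw [dif_pos ha]
    exact hμ.pos _ (fun h1 => h0 (congrArg Subtype.val h1))
  · intro a ha hd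
    have hs : ⨆ n, a n ∈ C := iSup_mem' hC a ha
    have h1 := hμ.additive (fun n => ⟨a n, ha n⟩) ⟨⨆ n, a n, hs⟩
      (fun i j hij => by
        change Disjoint (⟨a i, ha i⟩ : C) ⟨a j, ha j⟩
        rw [disjoint_iff]
        exact Subtype.ext (disjoint_iff.1 (hd hij)))
      (by
        constructor
        · rintro _ ⟨n, rfl⟩
          exact le_iSup a n
        · intro b hb
          exact iSup_le (fun n => hb ⟨n, rfl⟩))
    rw [dif_pos hs]
    have h2 : (fun n => if hb : a n ∈ C then μ ⟨a n, hb⟩ else 0) = fun n => μ ⟨a n, ha n⟩ :=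
      funext fun n => dif_pos (ha n)
    rw [h2]
    exact h1

theorem MeasOn.mono_alg {C D : BooleanSubalgebra B} {μ : B → ℝ≥0} (h : MeasOn C μ) (hD : D ≤ C) :
    MeasOn D μ :=
  ⟨fun a ha => h.pos a (hD ha), fun a ha => h.add a fun n => hD (ha n)⟩

theorem eq_zero_of_summable_const {x : ℝ≥0} (hs : Summable fun _ : ℕ => x) : x = 0 := by
  have h1 : Summable fun _ : ℕ => (x : ℝ) := NNReal.summable_coe.2 hs
  have h2 : (x : ℝ) = 0 := tendsto_nhds_unique tendsto_const_nhds h1.tendsto_atTop_zero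
  exact_mod_cast h2

theorem MeasOn.zero {C : BooleanSubalgebra B} {μ : B → ℝ≥0} (h : MeasOn C μ) : μ ⊥ = 0 := by
  have h0 : Pairwise (fun i j : ℕ => Disjoint ((fun _ => ⊥ : ℕ → B) i) ((fun _ => ⊥ : ℕ → B) j)) :=
    fun i j _ => (disjoint_bot_left : Disjoint (⊥ : B) ⊥)
  exact eq_zero_of_summable_const
    (h.add (fun _ => ⊥) (fun _ => BooleanSubalgebra.bot_mem) h0).summable

theorem MeasOn.sup {C : BooleanSubalgebra B} {μ : B → ℝ≥0} (h : MeasOn C μ) {a b : B}
    (ha : a ∈ C) (hb : b ∈ C) (hab : Disjoint a b) : μ (a ⊔ b) = μ a + μ b := by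
  let f : ℕ → B := fun n => if n = 0 then a else if n = 1 then b else ⊥
  have hf : ∀ n, f n ∈ C := by
    intro n
    simp only [f]
    split_ifs
    · exact ha
    · exact hb
    · exact BooleanSubalgebra.bot_mem
  have hd : Pairwise (fun i j => Disjoint (f i) (f j)) := by
    intro i j hij
    simp only [f]
    split_ifs with h1 h2 h3 h4 h5
    · omega
    · exact hab
    · exact disjoint_bot_right
    · exact hab.symm
    · omega
    · exact disjoint_bot_right
    all_goals exact disjoint_bot_left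
  have h1 := h.add f hf hd
  have hsup : ⨆ n, f n = a ⊔ b := by
    apply le_antisymm
    · apply iSup_le
      intro n
      simp only [f]
      split_ifs
      · exact le_sup_left
      · exact le_sup_right
      · exact bot_le
    · apply sup_le
      · exact le_iSup_of_le 0 (by simp [f])
      · exact le_iSup_of_le 1 (by simp [f])
  rw [hsup] at h1
  have h2 : HasSum (fun n => μ (f n)) (∑ n ∈ Finset.range 2, μ (f n)) := by
    apply hasSum_sum_of_ne_finset_zero
    intro n hn
    have : ¬ n < 2 := by simpa using hn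
    have h3 : f n = ⊥ := by
      simp only [f]
      rw [if_neg (by omega), if_neg (by omega)]
    rw [h3, h.zero]
  have h3 := h1.unique h2
  rw [h3]
  simp [Finset.sum_range_succ, f]

theorem MeasOn.mono {C : BooleanSubalgebra B} {μ : B → ℝ≥0} (h : MeasOn C μ) {a b : B}
    (ha : a ∈ C) (hb : b ∈ C) (hab : a ≤ b) : μ a ≤ μ b := by
  have h1 : b = a ⊔ b \ a := (sup_sdiff_cancel_right hab).symm
  rw [h1, h.sup ha (BooleanSubalgebra.sdiff_mem hb ha) disjoint_sdiff_self_right]
  exact le_self_add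

theorem disjointed_mem {C : BooleanSubalgebra B} (a : ℕ → B) (ha : ∀ n, a n ∈ C) (n : ℕ) :
    disjointed a n ∈ C := by
  have hp : ∀ n, partialSups a n ∈ C := by
    intro n
    induction n with
    | zero => simpa using ha 0
    | succ n ih =>
      rw [partialSups_add_one]
      exact BooleanSubalgebra.sup_mem ih (ha _)
  cases n with
  | zero => rw [disjointed_zero]; exact ha 0
  | succ n =>
    rw [disjointed_add_one]
    exact BooleanSubalgebra.sdiff_mem (ha _) (hp n)

/-- Countable subadditivity. -/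
theorem MeasOn.iSup_le {C : BooleanSubalgebra B} {μ : B → ℝ≥0}
    (h : MeasOn C μ) (a : ℕ → B) (ha : ∀ n, a n ∈ C) (c : ℕ → ℝ≥0) (hc : Summable c)
    (hac : ∀ n, μ (a n) ≤ c n) : μ (⨆ n, a n) ≤ ∑' n, c n := by
  have h1 := h.add (disjointed a) (disjointed_mem a ha) (disjoint_disjointed a)
  rw [iSup_disjointed] at h1
  rw [← h1.tsum_eq]
  refine Summable.tsum_le_tsum (fun n => ?_) h1.summable hc
  exact (h.mono (disjointed_mem a ha n) (ha n) (disjointed_le a n)).trans (hac n)

end Sub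

/-! ### Step 1 -/

section Main

variable {B : Type u} [CompleteBooleanAlgebra B] {m : B → ℝ≥0}

theorem step1 (hm : IsContinuousOuterMeasure m) {C : BooleanSubalgebra B}
    (hC : IsCompleteSubalgebra C) {μ : B → ℝ≥0} (h : MeasOn C μ) (ε : ℝ≥0) (hε : 0 < ε) :
    ∃ δ : ℝ≥0, 0 < δ ∧ ∀ a ∈ C, ε ≤ m a → δ ≤ μ a := by
  by_contra hcon
  push Not at hcon
  have h1 : ∀ n : ℕ, ∃ a ∈ C, ε ≤ m a ∧ μ a < (1 / 2) ^ n := fun n =>
    hcon ((1 / 2) ^ n) (by positivity)
  choose a haC ham haμ using h1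
  let b : ℕ → B := fun j => ⨆ k, a (j + k)
  have hb : ∀ j, b j ∈ C := fun j => iSup_mem' hC _ fun k => haC _
  have hbanti : Antitone b := by
    apply antitone_nat_of_succ_le
    intro j
    apply _root_.iSup_le
    intro k
    refine le_iSup_of_le (k + 1) ?_
    rw [show j + 1 + k = j + (k + 1) by ring]
  have hbμ : ∀ j, μ (b j) ≤ (1 / 2) ^ j * 2 := by
    intro j
    have hs : HasSum (fun k : ℕ => (1 / 2 : ℝ≥0) ^ j * (1 / 2) ^ k) ((1 / 2) ^ j * 2) := by
      apply HasSum.mul_left
      rw [← NNReal.hasSum_coe]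
      push_cast
      exact hasSum_geometric_two
    rw [← hs.tsum_eq]
    refine h.iSup_le _ (fun k => haC _) _ hs.summable fun k => ?_
    rw [← pow_add]
    exact (haμ _).le
  have hinf : ⨅ j, b j = ⊥ := by
    by_contra hne
    have h2 := h.pos _ (iInf_mem' hC b hb) hne
    have h3 : ∀ j, μ (⨅ j, b j) ≤ (1 / 2) ^ j * 2 := fun j =>
      (h.mono (iInf_mem' hC b hb) (hb j) (iInf_le b j)).trans (hbμ j)
    have h4 : Tendsto (fun j : ℕ => (1 / 2 : ℝ≥0) ^ j * 2) atTop (𝓝 (0 * 2)) :=
      (NNReal.tendsto_pow_atTop_nhds_zero_of_lt_one (by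
        rw [← NNReal.coe_lt_coe]; norm_num)).mul_const 2
    rw [zero_mul] at h4
    have h5 := ge_of_tendsto' h4 h3
    exact absurd h2 (not_lt.2 h5)
  have h6 := hm.cont b hbanti hinf
  have h7 : ∀ j, ε ≤ m (b j) := fun j =>
    (ham j).trans (hm.mono _ _ (le_iSup_of_le 0 (by simp)))
  exact absurd hε (not_lt.2 (ge_of_tendsto' h6 h7))

/-! ### Step 2 -/

/-- Finitely additive probabilities on a subalgebra which are `≥ δ` on all elements `a` with
`m a ≥ ε`. -/
structure FAProb (m : B → ℝ≥0) (ε δ : ℝ≥0) (C : Set B) (ν : B → ℝ) : Prop where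
  nonneg : ∀ a, 0 ≤ ν a
  le_one : ∀ a, ν a ≤ 1
  top : ⊤ ∈ C → ν ⊤ = 1
  add : ∀ a ∈ C, ∀ b ∈ C, Disjoint a b → ν (a ⊔ b) = ν a + ν b
  low : ∀ a ∈ C, ε ≤ m a → (δ : ℝ) ≤ ν a

theorem FAProb.mono {ε δ δ' : ℝ≥0} {C C' : Set B} {ν : B → ℝ} (h : FAProb m ε δ C ν)
    (hδ : δ' ≤ δ) (hC : C' ⊆ C) : FAProb m ε δ' C' ν :=
  ⟨h.nonneg, h.le_one, fun ht => h.top (hC ht), fun a ha b hb => h.add a (hC ha) b (hC hb),
    fun a ha hm => le_trans (by exact_mod_cast hδ) (h.low a (hC ha) hm)⟩

theorem step2a [Nontrivial B] (hm : IsContinuousOuterMeasure m) {C : BooleanSubalgebra B}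
    (hC : IsCompleteSubalgebra C) {μ : B → ℝ≥0} (h : MeasOn C μ) (ε : ℝ≥0) (hε : 0 < ε) :
    ∃ δ : ℝ≥0, 0 < δ ∧ ∃ ν, FAProb m ε δ (C : Set B) ν := by
  classical
  obtain ⟨δ, hδ, h1⟩ := step1 hm hC h ε hε
  have ht : 0 < μ ⊤ := h.pos ⊤ BooleanSubalgebra.top_mem top_ne_bot
  refine ⟨δ / μ ⊤, by positivity, fun a => if a ∈ C then (μ a / μ ⊤ : ℝ≥0) else 0, ?_⟩
  constructor
  · intro a
    split_ifs
    · exact NNReal.coe_nonneg _
    · exact le_refl _
  · intro a
    split_ifs with ha
    · have : μ a / μ ⊤ ≤ 1 := by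
        rw [div_le_one ht]
        exact h.mono ha BooleanSubalgebra.top_mem le_top
      exact_mod_cast this
    · exact zero_le_one
  · intro _
    rw [if_pos BooleanSubalgebra.top_mem, div_self ht.ne']
    rfl
  · intro a ha b hb hab
    rw [SetLike.mem_coe] at ha hb
    rw [if_pos ha, if_pos hb, if_pos (BooleanSubalgebra.sup_mem ha hb), h.sup ha hb hab, add_div]
    push_cast
    rfl
  · intro a ha hma
    rw [SetLike.mem_coe] at ha
    rw [if_pos ha]
    have : δ / μ ⊤ ≤ μ a / μ ⊤ := by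
      gcongr
      exact h1 a ha hma
    exact_mod_cast this

theorem step2 [Nontrivial B] (hm : IsContinuousOuterMeasure m)
    (hcg : ∀ C : BooleanSubalgebra B, IsCountablyGenerated C → ∃ μ : B → ℝ≥0, MeasOn C μ)
    (ε : ℝ≥0) (hε : 0 < ε) :
    ∃ δ : ℝ≥0, 0 < δ ∧ ∀ G : Set B, G.Countable → ∃ ν, FAProb m ε δ (cgen G : Set B) ν := by
  by_contra hcon
  push Not at hcon
  have h1 : ∀ n : ℕ, ∃ G : Set B, G.Countable ∧ ∀ ν, ¬ FAProb m ε (1 / (n + 1)) (cgen G : Set B) ν :=
    fun n => hcon _ (by positivity)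
  choose G hG hG' using h1
  have hU : (⋃ n, G n).Countable := Set.countable_iUnion hG
  obtain ⟨μ, hμ⟩ := hcg _ (cgen_countablyGenerated hU)
  obtain ⟨δ, hδ, ν, hν⟩ := step2a hm (cgen_complete _) hμ ε hε
  obtain ⟨n, hn⟩ : ∃ n : ℕ, 1 / ((n : ℝ≥0) + 1) < δ := exists_nat_one_div_lt hδ
  exact hG' n ν (hν.mono hn.le (cgen_mono (Set.subset_iUnion G n)))

/-! ### Step 3: compactness -/

/-- The closed set of the functions which satisfy the requirements on a finite set `S`. -/
def KS (m : B → ℝ≥0) (ε δ : ℝ≥0) (S : Finset B) : Set (B → ℝ) :=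
  {ν | FAProb m ε δ (S : Set B) ν}

theorem isClosed_KS (ε δ : ℝ≥0) (S : Finset B) : IsClosed (KS m ε δ S) := by
  have h : KS m ε δ S = (⋂ a, {ν | 0 ≤ ν a}) ∩ (⋂ a, {ν | ν a ≤ 1}) ∩
      (⋂ _ : ⊤ ∈ (S : Set B), {ν | ν ⊤ = 1}) ∩
      (⋂ a, ⋂ _ : a ∈ (S : Set B), ⋂ b, ⋂ _ : b ∈ (S : Set B), ⋂ _ : Disjoint a b,
        {ν | ν (a ⊔ b) = ν a + ν b}) ∩
      (⋂ a, ⋂ _ : a ∈ (S : Set B), ⋂ _ : ε ≤ m a, {ν : B → ℝ | (δ : ℝ) ≤ ν a}) := by
    ext ν
    simp only [mem_inter_iff, mem_iInter, mem_ofPred_eq]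
    constructor
    · intro h
      exact ⟨⟨⟨⟨h.nonneg, h.le_one⟩, h.top⟩, h.add⟩, h.low⟩
    · rintro ⟨⟨⟨⟨h1, h2⟩, h3⟩, h4⟩, h5⟩
      exact ⟨h1, h2, h3, h4, h5⟩
  rw [h]
  refine IsClosed.inter (IsClosed.inter (IsClosed.inter (IsClosed.inter ?_ ?_) ?_) ?_) ?_
  · exact isClosed_iInter fun a => isClosed_le continuous_const (continuous_apply a)
  · exact isClosed_iInter fun a => isClosed_le (continuous_apply a) continuous_const
  · exact isClosed_iInter fun _ => isClosed_eq (continuous_apply _) continuous_const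
  · exact isClosed_iInter fun a => isClosed_iInter fun _ => isClosed_iInter fun b =>
      isClosed_iInter fun _ => isClosed_iInter fun _ =>
        isClosed_eq (continuous_apply _) ((continuous_apply a).add (continuous_apply b))
  · exact isClosed_iInter fun a => isClosed_iInter fun _ => isClosed_iInter fun _ =>
      isClosed_le continuous_const (continuous_apply a)

theorem step3 (ε δ : ℝ≥0)
    (h : ∀ G : Set B, G.Countable → ∃ ν, FAProb m ε δ (cgen G : Set B) ν) :
    ∃ ν, FAProb m ε δ Set.univ ν := by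
  classical
  have hcomp : ∀ S : Finset B, IsCompact (KS m ε δ S) := by
    intro S
    refine (isCompact_univ_pi (fun _ : B => isCompact_Icc (a := (0 : ℝ)) (b := 1))).of_isClosed_subset
      (isClosed_KS ε δ S) ?_
    intro ν hν a _
    exact ⟨hν.nonneg a, hν.le_one a⟩
  have hne : ∀ S : Finset B, (KS m ε δ S).Nonempty := by
    intro S
    obtain ⟨ν, hν⟩ := h (S : Set B) S.countable_toSet
    exact ⟨ν, hν.mono le_rfl (subset_cgen _)⟩
  have hdir : Directed (· ⊇ ·) (KS m ε δ) := by
    intro S T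
    refine ⟨S ∪ T, ?_, ?_⟩
    · intro ν hν
      exact hν.mono le_rfl (by intro a ha; simp [ha])
    · intro ν hν
      exact hν.mono le_rfl (by intro a ha; simp [ha])
  obtain ⟨ν, hν⟩ := IsCompact.nonempty_iInter_of_directed_nonempty_isCompact_isClosed
    (KS m ε δ) hdir hne hcomp (fun S => isClosed_KS ε δ S)
  rw [mem_iInter] at hν
  refine ⟨ν, (hν ∅).nonneg, (hν ∅).le_one, ?_, ?_, ?_⟩
  · intro _
    exact (hν {⊤}).top (by simp)
  · intro a _ b _ hab
    exact (hν {a, b}).add a (by simp) b (by simp) hab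
  · intro a _ ha
    exact (hν {a}).low a (by simp) ha

/-- Step 3, second part: one finitely additive probability for all `ε`. -/
theorem step3b [Nontrivial B] (hm : IsContinuousOuterMeasure m)
    (hcg : ∀ C : BooleanSubalgebra B, IsCountablyGenerated C → ∃ μ : B → ℝ≥0, MeasOn C μ) :
    ∃ ν : B → ℝ≥0∞, (∀ a, ν a ≤ 1) ∧ (∀ a b, Disjoint a b → ν (a ⊔ b) = ν a + ν b) ∧
      ∀ ε : ℝ≥0, 0 < ε → ∃ δ : ℝ≥0∞, 0 < δ ∧ ∀ a, ε ≤ m a → δ ≤ ν a := by
  have h1 : ∀ n : ℕ, ∃ δ : ℝ≥0, 0 < δ ∧ ∃ ν, FAProb m (1 / ((n : ℝ≥0) + 1)) δ Set.univ ν := by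
    intro n
    obtain ⟨δ, hδ, h⟩ := step2 hm hcg (1 / ((n : ℝ≥0) + 1)) (by positivity)
    exact ⟨δ, hδ, step3 _ _ h⟩
  choose δ hδ ν hν using h1
  have htwo : ∑' n : ℕ, (2⁻¹ : ℝ≥0∞) ^ (n + 1) = 1 := by
    rw [ENNReal.tsum_geometric_add_one]
    rw [ENNReal.one_sub_inv_two, inv_inv]
    exact ENNReal.inv_mul_cancel (by norm_num) (by norm_num)
  refine ⟨fun a => ∑' n : ℕ, (2⁻¹ : ℝ≥0∞) ^ (n + 1) * ENNReal.ofReal (ν n a), ?_, ?_, ?_⟩
  · intro a
    rw [← htwo]
    apply ENNReal.tsum_le_tsum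
    intro n
    calc (2⁻¹ : ℝ≥0∞) ^ (n + 1) * ENNReal.ofReal (ν n a)
        ≤ (2⁻¹ : ℝ≥0∞) ^ (n + 1) * 1 := by
          gcongr
          exact ENNReal.ofReal_le_one.2 ((hν n).le_one a)
      _ = _ := mul_one _
  · intro a b hab
    rw [← ENNReal.tsum_add]
    refine tsum_congr fun n => ?_
    rw [(hν n).add a trivial b trivial hab,
      ENNReal.ofReal_add ((hν n).nonneg a) ((hν n).nonneg b), mul_add]
  · intro ε hε
    obtain ⟨n, hn⟩ : ∃ n : ℕ, 1 / ((n : ℝ≥0) + 1) < ε := exists_nat_one_div_lt hε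
    refine ⟨(2⁻¹ : ℝ≥0∞) ^ (n + 1) * (δ n : ℝ≥0∞), ?_, ?_⟩
    · apply ENNReal.mul_pos
      · exact pow_ne_zero _ (by simp)
      · exact_mod_cast (hδ n).ne'
    · intro a ha
      refine le_trans ?_ (ENNReal.le_tsum n)
      gcongr
      rw [ENNReal.le_ofReal_iff_toReal_le (by simp) ((hν n).nonneg a)]
      simpa using (hν n).low a trivial (hn.le.trans ha)

/-! ### Step 4: the countably additive part -/

/-- The infimum of the sums of `ν` over the countable partitions of `a`. -/
noncomputable def part (ν : B → ℝ≥0∞) (a : B) : ℝ≥0∞ :=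
  ⨅ (c : ℕ → B) (_ : Pairwise (fun i j => Disjoint (c i) (c j))) (_ : ⨆ n, c n = a), ∑' n, ν (c n)

section Part

variable {ν : B → ℝ≥0∞} (hν1 : ∀ a, ν a ≤ 1)
  (hνadd : ∀ a b, Disjoint a b → ν (a ⊔ b) = ν a + ν b)

include hν1 hνadd

theorem nu_bot : ν ⊥ = 0 := by
  have h := hνadd ⊥ ⊥ disjoint_bot_left
  rw [sup_idem] at h
  have hne : ν ⊥ ≠ ∞ := ne_top_of_le_ne_top ENNReal.one_ne_top (hν1 _)
  have h2 : ν ⊥ + 0 = ν ⊥ + ν ⊥ := by rw [add_zero]; exact h
  exact ((ENNReal.add_right_inj hne).1 h2).symm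

omit hν1 in
theorem nu_mono {a b : B} (hab : a ≤ b) : ν a ≤ ν b := by
  have h1 : b = a ⊔ b \ a := (sup_sdiff_cancel_right hab).symm
  rw [h1, hνadd _ _ disjoint_sdiff_self_right]
  exact le_self_add

theorem nu_range (c : ℕ → B) (hc : Pairwise (fun i j => Disjoint (c i) (c j))) (n : ℕ) :
    ν ((Finset.range n).sup c) = ∑ i ∈ Finset.range n, ν (c i) := by
  induction n with
  | zero => simpa using nu_bot hν1 hνadd
  | succ n ih =>
    rw [Finset.range_add_one, Finset.sup_insert, Finset.sum_insert (by simp), ← ih]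
    apply hνadd
    rw [Finset.disjoint_sup_right]
    intro i hi
    exact hc (by
      rw [Finset.mem_range] at hi
      omega)

theorem tsum_nu_le (c : ℕ → B) (hc : Pairwise (fun i j => Disjoint (c i) (c j))) (a : B)
    (ha : ∀ n, c n ≤ a) : ∑' n, ν (c n) ≤ ν a := by
  rw [ENNReal.tsum_eq_iSup_nat]
  apply _root_.iSup_le
  intro n
  rw [← nu_range hν1 hνadd c hc n]
  exact nu_mono hνadd (Finset.sup_le fun i _ => ha i)

theorem part_le_one (a : B) : part ν a ≤ 1 := by
  classical
  have hd : Pairwise (fun i j : ℕ => Disjoint ((fun n => if n = 0 then a else (⊥ : B)) i)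
      ((fun n => if n = 0 then a else (⊥ : B)) j)) := by
    intro i j hij
    by_cases hi : i = 0
    · have hj : j ≠ 0 := by omega
      simp [hi, hj]
    · simp [hi]
  have hs : ⨆ n : ℕ, (fun n => if n = 0 then a else (⊥ : B)) n = a := by
    apply le_antisymm
    · apply _root_.iSup_le
      intro n
      by_cases hn : n = 0 <;> simp [hn]
    · exact le_iSup_of_le 0 (by simp)
  refine (iInf_le_of_le _ (iInf_le_of_le hd (iInf_le_of_le hs ?_)))
  refine (tsum_nu_le hν1 hνadd _ hd a ?_).trans (hν1 a)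
  intro n
  by_cases hn : n = 0 <;> simp [hn]

theorem part_additive (a : ℕ → B) (ha : Pairwise (fun i j => Disjoint (a i) (a j))) :
    part ν (⨆ n, a n) = ∑' n, part ν (a n) := by
  apply le_antisymm
  · -- subadditivity
    apply ENNReal.le_of_forall_pos_le_add
    intro ε hε _
    obtain ⟨ε', hε', hsum⟩ := ENNReal.exists_pos_sum_of_countable (ENNReal.coe_pos.2 hε).ne' ℕ
    have h1 : ∀ n, ∃ c : ℕ → B, Pairwise (fun i j => Disjoint (c i) (c j)) ∧ ⨆ k, c k = a n ∧
        ∑' k, ν (c k) < part ν (a n) + ε' n := by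
      intro n
      have hlt : part ν (a n) < part ν (a n) + ε' n :=
        ENNReal.lt_add_right (ne_top_of_le_ne_top ENNReal.one_ne_top (part_le_one hν1 hνadd _))
          (ENNReal.coe_pos.2 (hε' n)).ne'
      conv at hlt => lhs; unfold part
      simp only [iInf_lt_iff] at hlt
      obtain ⟨c, hc1, hc2, hc3⟩ := hlt
      exact ⟨c, hc1, hc2, hc3⟩
    choose c hc1 hc2 hc3 using h1
    let e : ℕ ≃ ℕ × ℕ := Nat.pairEquiv.symm
    have hle : ∀ n k, c n k ≤ a n := fun n k => by rw [← hc2 n]; exact le_iSup (c n) k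
    have hd : Pairwise (fun i j => Disjoint ((fun i => c (e i).1 (e i).2) i)
        ((fun i => c (e i).1 (e i).2) j)) := by
      intro i j hij
      by_cases h : (e i).1 = (e j).1
      · have h2 : (e i).2 ≠ (e j).2 := by
          intro h3
          exact hij (e.injective (Prod.ext h h3))
        have := hc1 (e i).1 h2
        simp only
        rw [← h]
        exact this
      · exact (ha h).mono (hle _ _) (hle _ _)
    have hs : ⨆ i, (fun i => c (e i).1 (e i).2) i = ⨆ n, a n := by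
      simp_rw [← hc2]
      refine (e.surjective.iSup_comp (fun x : ℕ × ℕ => c x.1 x.2)).trans ?_
      exact iSup_prod (f := fun x : ℕ × ℕ => c x.1 x.2)
    calc part ν (⨆ n, a n) ≤ ∑' i, ν (c (e i).1 (e i).2) :=
          iInf_le_of_le _ (iInf_le_of_le hd (iInf_le_of_le hs le_rfl))
      _ = ∑' x : ℕ × ℕ, ν (c x.1 x.2) := e.tsum_eq (fun x : ℕ × ℕ => ν (c x.1 x.2))
      _ = ∑' n, ∑' k, ν (c n k) := ENNReal.tsum_prod (f := fun n k => ν (c n k))
      _ ≤ ∑' n, (part ν (a n) + ε' n) := ENNReal.tsum_le_tsum fun n => (hc3 n).le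
      _ = ∑' n, part ν (a n) + ∑' n, (ε' n : ℝ≥0∞) := ENNReal.tsum_add
      _ ≤ ∑' n, part ν (a n) + ε := by gcongr
  · -- superadditivity
    conv => rhs; unfold part
    refine le_iInf fun c => le_iInf fun hc => le_iInf fun hs => ?_
    calc ∑' n, part ν (a n) ≤ ∑' n, ∑' k, ν (c k ⊓ a n) := by
          apply ENNReal.tsum_le_tsum
          intro n
          refine iInf_le_of_le (fun k => c k ⊓ a n) (iInf_le_of_le ?_ (iInf_le_of_le ?_ le_rfl))
          · intro i j hij
            exact (hc hij).mono inf_le_left inf_le_left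
          · rw [← iSup_inf_eq, hs]
            exact inf_eq_right.2 (le_iSup a n)
      _ = ∑' k, ∑' n, ν (c k ⊓ a n) := ENNReal.tsum_comm
      _ ≤ ∑' k, ν (c k) := by
          apply ENNReal.tsum_le_tsum
          intro k
          refine tsum_nu_le hν1 hνadd _ ?_ _ (fun n => inf_le_left)
          intro i j hij
          exact (ha hij).mono inf_le_right inf_le_right

theorem part_pos (hm : IsContinuousOuterMeasure m)
    (hlow : ∀ ε : ℝ≥0, 0 < ε → ∃ δ : ℝ≥0∞, 0 < δ ∧ ∀ a, ε ≤ m a → δ ≤ ν a) (a : B) (ha : a ≠ ⊥) :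
    0 < part ν a := by
  have hma := hm.pos a ha
  obtain ⟨δ, hδ, h1⟩ := hlow (m a / 2) (by positivity)
  refine lt_of_lt_of_le hδ ?_
  unfold part
  refine le_iInf fun c => le_iInf fun hc => le_iInf fun hs => ?_
  let p : ℕ → B := fun n => (Finset.range n).sup c
  have hp : Monotone p := by
    intro i j hij
    exact Finset.sup_mono (Finset.range_mono hij)
  have hps : ⨆ n, p n = a := by
    rw [← hs]
    apply le_antisymm
    · exact _root_.iSup_le fun n => Finset.sup_le fun i _ => le_iSup c i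
    · refine _root_.iSup_le fun n => le_iSup_of_le (n + 1) ?_
      exact Finset.le_sup (f := c) (by simp)
  have hanti : Antitone fun n => a \ p n := fun i j hij => sdiff_le_sdiff_left (hp hij)
  have hinf : ⨅ n, a \ p n = ⊥ := by
    have : ⨅ n, a \ p n = a \ ⨆ n, p n := by
      simp only [_root_.sdiff_eq, compl_iSup, inf_iInf]
    rw [this, hps, _root_.sdiff_self]
  have h2 := hm.cont _ hanti hinf
  obtain ⟨n, hn⟩ := (h2.eventually (gt_mem_nhds (show (0 : ℝ≥0) < m a / 2 by positivity))).exists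
  have h3 : m a ≤ m (p n) + m (a \ p n) := by
    refine (hm.mono _ _ ?_).trans (hm.subadd _ _)
    exact le_sup_sdiff
  have h4 : m a / 2 ≤ m (p n) := by
    by_contra hcon
    push Not at hcon
    have h5 : m a < m a / 2 + m a / 2 := lt_of_le_of_lt h3 (add_lt_add hcon hn)
    rw [add_halves] at h5
    exact lt_irrefl _ h5
  calc δ ≤ ν (p n) := h1 _ h4
    _ = ∑ i ∈ Finset.range n, ν (c i) := nu_range hν1 hνadd c hc n
    _ ≤ ∑' i, ν (c i) := ENNReal.sum_le_tsum _

end Part

end Main

/-- If a complete Boolean algebra carries a continuous outer measure and all its countably generated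
complete subalgebras admit measures, then it admits a measure. -/
theorem result (B : Type u) [CompleteBooleanAlgebra B]
    (hC : ∀ C : BooleanSubalgebra B, IsCountablyGenerated C → ∃ μ : C → ℝ≥0, IsMeasure μ)
    (hm : ∃ m : B → ℝ≥0, IsContinuousOuterMeasure m) :
    ∃ μ : B → ℝ≥0, IsMeasure μ := by
  obtain ⟨m, hm⟩ := hm
  rcases subsingleton_or_nontrivial B with hB | hB
  · refine ⟨fun _ => 0, fun a ha => absurd (Subsingleton.elim a ⊥) ha, fun a s _ _ => ?_⟩
    exact hasSum_zero
  obtain ⟨ν, hν1, hνadd, hlow⟩ := step3b hm fun C h => exists_measOn h.1 (hC C h)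
  have hfin : ∀ a, part ν a ≠ ∞ := fun a =>
    ne_top_of_le_ne_top ENNReal.one_ne_top (part_le_one hν1 hνadd a)
  refine ⟨fun a => (part ν a).toNNReal, ?_, ?_⟩
  · intro a ha
    exact ENNReal.toNNReal_pos (part_pos hν1 hνadd hm hlow a ha).ne' (hfin a)
  · intro a s ha hs
    have h1 : s = ⨆ n, a n := (isLUB_iSup (f := a)).unique hs |>.symm
    rw [← ENNReal.hasSum_coe]
    simp only [ENNReal.coe_toNNReal (hfin _)]
    rw [h1, part_additive hν1 hνadd a ha]
    exact ENNReal.summable.hasSum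

end Pool.Agent.Results.MP_2d6919_lc.OuterMeasure
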